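import Pool.Agent.Helper42.EQMU.Res0
import Pool.Agent.Helper84.EQMU.Gol

/-!
# Unramified representations with arbitrary residual representation and infinite class field towers

Let `K` be any number field and let `M₀` be `K` or a finite Galois extension of `K` in which two infinite
places of `K` split completely (any finite Galois extension if `K` has two complex places). Let `n ≥ 1`,
and let `c = 2 ^ k ≥ 2` with `2 n ≤ c`. There are cyclic extensions `F` of `K` of degree `c` in which all
infinite places of `K` split and which meet `M₀` only in `K` (`exists_field`). For every such `F` and all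
sufficiently large prime numbers `p` congruent to `1` modulo `c` we construct infinitely many number
fields `N` containing `F`, of degree `p ^ 2` over `F`, with the following properties (`result`). Let `E`
be the compositum of `N` and `M₀`.

1. There are exactly `p ^ δ` homomorphisms from the class group of `N` to the group of order `p`, where
`δ ≥ 3` is any given number congruent to `1` modulo `c` with `2 δ ≤ p`; in the theorem they are the
continuous homomorphisms from the absolute Galois group of `N` which are unramified everywhere.

2. Let `A` be any complete Noetherian local ring with finite residue field of characteristic `p` and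
`m ≤ n`. All continuous homomorphisms `ρ` from the absolute Galois group of `N` to `GL_m(A)` which are
unramified everywhere and such that the image of the absolute Galois group of `E` in `PGL_m` of the residue
field is a `p`-group have finite image. So the residual representation of `ρ` is arbitrary as long as it
becomes projectively a `p`-group over the compositum with `M₀`. Instead of everywhere unramified it is
enough that `ρ` is ramified only in a finite set `S'` of primes `P` of `N`, at most tamely ramified there,
such that `P` lies above `p` or `p` does not divide `(N P) ^ [E : N] - 1`. The same is true for the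
representations of the absolute Galois groups of `E` and of all fields `E'` between `N` and `E`.

The `p`-class field tower of `N` (and so that of every `E'`) is infinite if `p` is not too small: there
is an intermediate field `L` such that `L / F` and `N / L` are cyclic of degree `p`, the extension `L / F`
is unramified outside a set `S` of three primes of `K`, the extension `N / L` is totally ramified at all
primes above `S` and unramified at all other primes, the rank of the group of units of `L` is
`c p (r + 1) - 1`, where `r` is the rank for `K`, and there are exactly `p ^ (δ + 1)` continuous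
homomorphisms from the absolute Galois group of `L` to the group of order `p` which are unramified
outside the primes above `S`. By results of Shafarevich and Koch the Galois group of the maximal
`p`-extension of `L` which is unramified outside the primes above `S` is generated by `δ + 1` elements
and can be presented by `δ + c p (r + 1)` relations. Let `Γ` be its quotient by the `p`-th powers of
the elements of the inertia groups. There are at most `3 c p` primes of `L` above `S`, so the relations
of `Γ` are those above and at most `3 c p` other relations, which are `p`-th powers. The subgroup of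
index `p` of `Γ` which belongs to `N` is the Galois group of the maximal unramified `p`-extension of
`N`: the inertia groups of `Γ` have order `p` and meet this subgroup trivially. If
`16 c (r + 1) + 4 c + 6 ≤ p`, then there are a possible `δ` and a number `t` with `0 < t < 1` and
`1 - (δ + 1) t + (δ + c p (r + 1)) t ^ 2 + 3 c p t ^ p < 0` (`golod`), and `Γ` is infinite by the
theorem of Golod and Shafarevich.

Idea of the proof.

1. Let `M` be the compositum of `M₀` and `F`. The set `S = {v₀, v₁, v₂}` and the field `L` are those of the
construction described in the hand-in on tame representations of every dimension over every number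
field, but the logarithms of the primes above `S` are prescribed on the units of the compositum of `M`
and `L` and not only on the units of `L`. There are two homomorphisms `m₁`, `m₂` from the units
of `M` to the field with `p` elements whose conjugates under the Galois group of `M` over `K` satisfy only
the obvious relations; they come from two units which are large at only one infinite place above two
places of `K` which split completely in `M₀` (`exists_fun2`). The primes are chosen such that the part of
the logarithm at `v₀` on the units of `M` on which the average over the Galois group `Δ` of `M` over `F`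
vanishes comes from `m₂`, and those at `v₁` and `v₂` come from the odd and the even part of `m₁`. It
follows that all homomorphisms from the absolute Galois group of `M` to the group of order `p` which
are unramified outside the primes above `S` are invariant under `Δ` (`inv_of_logs`).

2. Let `L'` be the compositum of `M` and `L`. All homomorphisms `ψ` from the absolute Galois group of `L'`
to the group of order `p`, unramified outside the primes above `S`, are invariant under the
group of `L`: otherwise there is a nonzero `ψ` whose average over `Δ` is zero and which is fixed by the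
`p`-group of `L'` over `M`; since `Δ` commutes with this group, `ψ` vanishes at the `p`-th power of a
generator, so it extends to the group of `M`, where it is invariant by 1, a contradiction
(`Helper42.EQM.inv_of`). So the characters of `L'` are the restrictions of the characters `χ_0, ..., χ_δ` of
`L`, and the values at the inertia groups and Frobenius elements of the primes above `S`, which split
completely in `L'` over `L`, are the same.

3. The vectors of the values of `χ_0, ..., χ_δ` at elements of the inertia groups of the primes of `L`
above `S` are multiples of `(1, s, ..., s ^ δ)`, of its derivative with respect to `s`, and of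
`(0, ..., 0, 1)`. There is a polynomial `C` of degree `δ` over the field with `p` elements such that `C`
and its derivative have no zeros in this field, since `δ ≥ 3` is odd (`exists_C`). So the character
`θ = ∑ C_a χ_a` is ramified at all primes above `S`; the field `N` is the field fixed by its kernel, and
`E` is the field fixed by the kernel of the restriction of `θ` to the group of `L'`.

4. Let `σ` be a homomorphism from the group of `E` to `GL_m(O)`, unramified everywhere, where `O` is a
complete discrete valuation ring with prime element `π`, and `σ ≡ 1` modulo `π ^ a`. As in the hand-in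
on unramified representations over fields of degree `p ^ 2`, the first coefficient extends to the group
of `L'`, and the relations `[τ, s] = 1` and `τ ^ p = 1` for the inertia groups show that alternating forms of
rank at most `2 m ≤ c` vanish at all pairs of vectors of the primes above `S`. By the theorem on
osculating vectors (`rig_osc`) these forms are zero, so the coefficients commute. By a criterion proved
before this implies that all representations in question of the group of `E` have finite image, and the
theorem for `E'` follows by restriction to `E`.
-/

set_option autoImplicit false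

open NumberField IsLocalRing Matrix

open scoped Pointwise

namespace Pool.Agent.Results.MP_924d78_nt.UnramifiedResidualField

/-- The absolute Galois group of the field `K`. -/
abbrev G (K : Type) [Field K] : Type := AlgebraicClosure K ≃ₐ[K] AlgebraicClosure K

/-- The homomorphism `ρ` is unramified outside `S` and at most tamely ramified in `S`: for every
number field `F` containing `K` and embedded over `K` into the fixed field of the kernel of `ρ`,
and every maximal ideal `P` of the ring of integers of `F` above a prime `q` of `K`, the ramification
index `e` of `P` over `q` is `1` if `q ∉ S` and is prime to the residue characteristic if `q ∈ S`. -/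
def TameAt (K : Type) [Field K] [NumberField K] (S : Set (Ideal (𝓞 K))) {H : Type} [Group H]
    (ρ : G K →* H) : Prop :=
  ∀ (F : Type) [Field F] [NumberField F] [Algebra K F] (ι : F →ₐ[K] AlgebraicClosure K),
    ι.fieldRange ≤ IntermediateField.fixedField ρ.ker →
    ∀ (P : Ideal (𝓞 F)), P.IsMaximal →
    ∀ (q : Ideal (𝓞 K)), q = P.comap (algebraMap (𝓞 K) (𝓞 F)) →
    ∀ e : ℕ, q.map (algebraMap (𝓞 K) (𝓞 F)) ≤ P ^ e →
      ¬ (q.map (algebraMap (𝓞 K) (𝓞 F)) ≤ P ^ (e + 1)) →
      (q ∉ S → e = 1) ∧ (q ∈ S → ¬ (ringChar (𝓞 K ⧸ q) ∣ e))

/-- The residual representation: the reduction of `ρ` modulo the maximal ideal. -/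
noncomputable def residual {Γ A : Type} [Group Γ] [CommRing A] [IsLocalRing A] {n : ℕ}
    (ρ : Γ →* GL (Fin n) A) : Γ →* GL (Fin n) (ResidueField A) :=
  (Matrix.GeneralLinearGroup.map (residue A)).comp ρ

/-- The image under `τ` of the automorphisms which fix the number field `E` is projectively a `p`-group:
for every such `g` some power of `τ g` with exponent a power of `p` is scalar. -/
def ProjectivelyPOver (p : ℕ) (E : Type) {E' k : Type} [Field E] [Field E']
    [Algebra E (AlgebraicClosure E')] [Field k] {n : ℕ} (τ : G E' →* GL (Fin n) k) : Prop :=
  ∀ g : G E', (∀ x : E, g (algebraMap E (AlgebraicClosure E') x) =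
    algebraMap E (AlgebraicClosure E') x) →
    ∃ (j : ℕ) (a : k), ((τ g ^ p ^ j : GL (Fin n) k) : Matrix (Fin n) (Fin n) k) = a • 1

/-- The homomorphism `ψ` to the group of order `p` is continuous and unramified outside `S`: its kernel
is open and it is trivial on the inertia groups of all maximal ideals `Q` of the ring of all algebraic
integers which lie above a prime outside `S`. -/
def UnramifiedOutside (p : ℕ) {K : Type} [Field K] [NumberField K] (S : Set (Ideal (𝓞 K)))
    (ψ : G K →* Multiplicative (ZMod p)) : Prop :=
  IsOpen (ψ.ker : Set (G K)) ∧ ∀ Q : Ideal (𝓞 (AlgebraicClosure K)), Q.IsMaximal →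
    Q.comap (algebraMap (𝓞 K) (𝓞 (AlgebraicClosure K))) ∉ S → ∀ γ ∈ Q.inertia (G K), ψ γ = 1

/-- The field `F` is a cyclic extension of `K` of degree `c`, and all infinite places of `K` split
completely in `F`. -/
structure SplitCyclic (K : Type) [Field K] [NumberField K] (c : ℕ)
    (F : IntermediateField K (AlgebraicClosure K)) : Prop where
  galois : IsGalois K F
  cyclic : IsCyclic (F ≃ₐ[K] F)
  degree : Module.finrank K F = c
  infinite : IsUnramifiedAtInfinitePlaces K F

/-- The field `M₀` is `K`, or it is a Galois extension of `K` and there are two infinite places of `K`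
which split completely in `M₀`. -/
structure TwoSplit (K : Type) [Field K] [NumberField K]
    (M₀ : IntermediateField K (AlgebraicClosure K)) : Prop where
  galois : IsGalois K M₀
  split : M₀ = ⊥ ∨ ∃ v₁ v₂ : InfinitePlace K, v₁ ≠ v₂ ∧ ∀ w : InfinitePlace M₀,
    w.comap (algebraMap K M₀) = v₁ ∨ w.comap (algebraMap K M₀) = v₂ → w.IsUnramified K

/-- The set `S` consists of three primes `P` of `K`, the residue fields of `P` have a prime number `q`
of elements, and `q ^ c` is congruent to `1` modulo `p`. -/
structure Primes (p c : ℕ) (K : Type) [Field K] [NumberField K] (S : Finset (Ideal (𝓞 K))) :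
    Prop where
  card_eq : S.card = 3
  maximal : ∀ P ∈ S, P.IsMaximal
  prime : ∀ P ∈ S, (Nat.card (𝓞 K ⧸ P)).Prime
  dvd : ∀ P ∈ S, p ∣ Nat.card (𝓞 K ⧸ P) ^ c - 1

/-- The number field `L` is a Galois extension of `K` and a cyclic extension of `F` of degree `p`, it is
unramified over `F` outside `S`, the rank of its group of units is `p (r + 1) - 1`, where `r` is the rank
for `F`, and there are `p ^ d` continuous homomorphisms from the absolute Galois group of `L` to the
group of order `p` which are unramified outside the primes above `S`. -/
structure Middle (p : ℕ) (K F L : Type) [Field K] [NumberField K] [Field F] [NumberField F] [Field L]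
    [NumberField L] [Algebra K F] [Algebra F L] [Algebra K L] (d : ℕ) (S : Set (Ideal (𝓞 K))) :
    Prop where
  tower : IsScalarTower K F L
  galois : IsGalois K L
  degree : Module.finrank F L = p
  unramified : ∀ P : Ideal (𝓞 L), P.IsMaximal → P.comap (algebraMap (𝓞 K) (𝓞 L)) ∉ S →
    ¬ (P.comap (algebraMap (𝓞 F) (𝓞 L))).map (algebraMap (𝓞 F) (𝓞 L)) ≤ P ^ 2
  rank_eq : Units.rank L + 1 = p * (Units.rank F + 1)
  characters : Nat.card {ψ : G L →* Multiplicative (ZMod p) //
    UnramifiedOutside p {P | P.comap (algebraMap (𝓞 K) (𝓞 L)) ∈ S} ψ} = p ^ d

/-- The number field `N` is a cyclic extension of `L` of degree `p`, which is totally ramified at all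
primes above `S` and unramified at all other primes, and there are `p ^ d` continuous homomorphisms from
the absolute Galois group of `N` to the group of order `p` which are unramified everywhere, that is,
`p ^ d` homomorphisms from the class group of `N` to the group of order `p`. -/
structure Top (p : ℕ) (K L N : Type) [Field K] [NumberField K] [Field L] [NumberField L] [Field N]
    [NumberField N] [Algebra K L] [Algebra L N] (d : ℕ) (S : Set (Ideal (𝓞 K))) : Prop where
  galois : IsGalois L N
  degree : Module.finrank L N = p
  ramified : ∀ P : Ideal (𝓞 N), P.IsMaximal → ∀ q : Ideal (𝓞 L),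
    P.comap (algebraMap (𝓞 L) (𝓞 N)) = q → q.comap (algebraMap (𝓞 K) (𝓞 L)) ∈ S →
    q.map (algebraMap (𝓞 L) (𝓞 N)) ≤ P ^ p
  unramified : ∀ P : Ideal (𝓞 N), P.IsMaximal → ∀ q : Ideal (𝓞 L),
    P.comap (algebraMap (𝓞 L) (𝓞 N)) = q → q.comap (algebraMap (𝓞 K) (𝓞 L)) ∉ S →
    ¬ q.map (algebraMap (𝓞 L) (𝓞 N)) ≤ P ^ 2
  characters : Nat.card {ψ : G N →* Multiplicative (ZMod p) // UnramifiedOutside p ∅ ψ} = p ^ d

/-- The number field `E` is the compositum of its subfields `N` and `M₀` containing `K`, and it is
a Galois extension of `N` of the same degree as `M₀` over `K`. -/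
structure Compositum (K M₀ N E : Type) [Field K] [NumberField K] [Field M₀] [NumberField M₀]
    [Field N] [NumberField N] [Field E] [NumberField E] [Algebra K M₀] [Algebra K N] [Algebra K E]
    [Algebra M₀ E] [Algebra N E] : Prop where
  tower : IsScalarTower K M₀ E
  tower' : IsScalarTower K N E
  galois : IsGalois N E
  degree : Module.finrank N E = Module.finrank K M₀
  generated : IntermediateField.adjoin N (Set.range (algebraMap M₀ E)) = ⊤

/-- There are fields `F` as in the theorem, of every degree `2 ^ k` and for every `M₀`. -/
theorem exists_field (K : Type) [Field K] [NumberField K]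
    (M₀ : IntermediateField K (AlgebraicClosure K)) [NumberField M₀] (k : ℕ) :
    ∃ (F : IntermediateField K (AlgebraicClosure K)) (_ : NumberField F),
      SplitCyclic K (2 ^ k) F ∧ M₀ ⊓ F = ⊥ := by
  obtain ⟨F, hF, h1, h2, h3, h4, h5⟩ := Helper45.EQM.exists_field K M₀ (c := 2 ^ k) (by positivity)
  exact ⟨F, hF, ⟨h1, h2, h3, h4⟩, h5⟩

/-- Let `K` be a number field, `k ≥ 1`, `2 n ≤ 2 ^ k`, let `M₀` be `K` or a finite Galois extension
of `K` in which two infinite places of `K` split completely, and let `F` be a cyclic extension of `K` of
degree `2 ^ k` in which all infinite places split and such that the intersection of `F` and `M₀` is `K`.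
For all large `p` congruent to `1` modulo `2 ^ k`, all `δ ≥ 3` congruent to `1` modulo `2 ^ k` with
`2 δ ≤ p` and all finite sets `B` of primes of `K` there are a set `S` of three primes outside `B` as in
`Primes`, a field `L` as in `Middle` with `p ^ (δ + 1)` characters, an extension `N` of `L` as in `Top`
with `p ^ δ` unramified characters and the compositum `E` of `N` and `M₀`, such that for all complete
Noetherian local rings `A` with finite residue field of characteristic `p`, all `m ≤ n` and all fields
`E'` between `N` and `E` (for example `N` and `E`): all `ρ` from the absolute Galois group of `E'` to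
`GL_m(A)` which are tame and ramified only in a finite set `S'` (for example the empty set) whose
members `P` are above `p` or satisfy `¬ p ∣ (N P) ^ [E : E'] - 1`, and whose residual representation
restricted to `E` has projective image a `p`-group, have finite image. -/
theorem result (K : Type) [Field K] [NumberField K] (n k : ℕ) (hk : 1 ≤ k)
    (hn : 2 * n ≤ 2 ^ k) (M₀ F : IntermediateField K (AlgebraicClosure K))
    [NumberField M₀] [NumberField F] (hM₀ : TwoSplit K M₀)
    (hF : SplitCyclic K (2 ^ k) F) (hd : M₀ ⊓ F = ⊥) :
    ∃ N₀ : ℕ, ∀ (p : ℕ) [Fact p.Prime], N₀ < p → p ≡ 1 [MOD 2 ^ k] → ∀ δ : ℕ, 3 ≤ δ →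
      δ ≡ 1 [MOD 2 ^ k] → 2 * δ ≤ p → ∀ B : Set (Ideal (𝓞 K)), B.Finite →
      ∃ (S : Finset (Ideal (𝓞 K))) (L : Type) (_ : Field L) (_ : NumberField L) (_ : Algebra K L)
        (_ : Algebra F L) (N : Type) (_ : Field N) (_ : NumberField N) (_ : Algebra K N)
        (_ : Algebra L N) (E : Type) (_ : Field E) (_ : NumberField E) (_ : Algebra K E)
        (_ : Algebra M₀ E) (_ : Algebra N E),
      (∀ P ∈ S, P ∉ B) ∧ Primes p (2 ^ k) K S ∧
      Middle p K F L (δ + 1) (S : Set (Ideal (𝓞 K))) ∧ IsScalarTower K L N ∧
      Top p K L N δ (S : Set (Ideal (𝓞 K))) ∧ Compositum K M₀ N E ∧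
      ∀ (A : Type) [CommRing A] [IsLocalRing A] [IsNoetherianRing A] [TopologicalSpace A]
      [CharP (ResidueField A) p] [Finite (ResidueField A)] [IsAdicComplete (maximalIdeal A) A],
      IsAdic (maximalIdeal A) → ∀ m ≤ n,
      ∀ (E' : Type) [Field E'] [NumberField E'] [Algebra N E'] [Algebra E' E]
      [IsScalarTower N E' E] [Algebra E (AlgebraicClosure E')]
      [IsScalarTower E' E (AlgebraicClosure E')],
      ∀ S' : Set (Ideal (𝓞 E')), S'.Finite →
        (∀ P ∈ S', P.IsMaximal → (p : 𝓞 E') ∉ P →
          ¬ p ∣ Nat.card (𝓞 E' ⧸ P) ^ Module.finrank E' E - 1) →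
        ∀ (ρ : G E' →* GL (Fin m) A), Continuous ρ → TameAt E' S' ρ →
        ProjectivelyPOver p E (residual ρ) → (Set.range ρ).Finite := by
  have hnM : NumberField (M₀ ⊔ F : IntermediateField K (AlgebraicClosure K)) := by
    have h1 : FiniteDimensional K M₀ := FiniteDimensional.right ℚ K M₀
    have h2 : FiniteDimensional K F := FiniteDimensional.right ℚ K F
    have h3 : FiniteDimensional K (M₀ ⊔ F : IntermediateField K (AlgebraicClosure K)) :=
      inferInstance
    have h4 : FiniteDimensional ℚ (M₀ ⊔ F : IntermediateField K (AlgebraicClosure K)) :=
      FiniteDimensional.trans ℚ K _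
    exact NumberField.mk
  obtain ⟨M, hM⟩ : ∃ M : IntermediateField K (AlgebraicClosure K), M = M₀ ⊔ F := ⟨_, rfl⟩
  have hnM : NumberField M := by
    rw [hM]
    exact hnM
  have hFM : F ≤ M := by
    rw [hM]
    exact le_sup_right
  have hM₀M : M₀ ≤ M := by
    rw [hM]
    exact le_sup_left
  let _ : Algebra F M := (IntermediateField.inclusion hFM).toRingHom.toAlgebra
  have t1 : IsScalarTower K F M := IsScalarTower.of_algebraMap_eq fun x => rfl
  have t2 : IsScalarTower F M (AlgebraicClosure K) := IsScalarTower.of_algebraMap_eq fun x => rfl
  have hgal₀ := hM₀.galois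
  have hgalF := hF.galois
  have hinf := hF.infinite
  obtain ⟨hgM, hdeg, -, -⟩ := Helper77.EQM.comp_data M₀ F M hd hM
  obtain ⟨N₀, hN₀⟩ := Helper42.EQMU.finalU K n k hk hn M₀ F M hM₀.galois hM₀.split hF.galois hF.cyclic
    hF.degree hF.infinite hd hM
  refine ⟨N₀, fun p _ hp hpk δ hδ3 hδ hδp B hB => ?_⟩
  obtain ⟨S, h1, h2, L, _, _, _, _, N, _, _, _, _, _, E, _, _, _, _, _, _,
    ⟨h3, h4, h5, h6, h7, h8⟩, ⟨h9, h10, h11, h12, h13, h14⟩,
    ⟨h15, h16, h17, h18, h19, h20, h21⟩, h22⟩ := hN₀ p hp hpk δ hδ3 hδ hδp B hB
  let aM₀E : Algebra M₀ E :=
    ((algebraMap M E).comp (IntermediateField.inclusion hM₀M).toRingHom).toAlgebra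
  refine ⟨S, L, _, _, _, _, N, _, _, _, _, E, _, _, _, aM₀E, _, fun P hP => (h2 P hP).1,
    ⟨h1, fun P hP => (h2 P hP).2.1, fun P hP => (h2 P hP).2.2.1, fun P hP => (h2 P hP).2.2.2⟩,
    ⟨h3, h4, h5, h6, h7, h8⟩, h9, ⟨h11, h12, fun P hP q hq hS => (h13 P hP q hq).1 hS,
      fun P hP q hq hS => (h13 P hP q hq).2 hS, h14⟩, ⟨?_, h15, h19, by rw [h20, hdeg], ?_⟩, ?_⟩
  · refine IsScalarTower.of_algebraMap_eq fun x => ?_
    rw [IsScalarTower.algebraMap_apply K M E]
    rfl
  · rw [← IsGalois.fixedField_fixingSubgroup (IntermediateField.adjoin N _)]
    have h23 : (IntermediateField.adjoin N (Set.range (algebraMap M₀ E))).fixingSubgroup = ⊥ := by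
      rw [eq_bot_iff]
      intro g hg
      rw [Subgroup.mem_bot]
      rw [IntermediateField.mem_fixingSubgroup_iff] at hg
      have hgM₀ : ∀ x : M₀, g (algebraMap M₀ E x) = algebraMap M₀ E x := fun x =>
        hg _ (IntermediateField.subset_adjoin N _ ⟨x, rfl⟩)
      refine h21 g fun x => ?_
      let τ : M ≃ₐ[K] M := AlgEquiv.restrictNormal (g.restrictScalars K) M
      have hτ : ∀ x : M, algebraMap M E (τ x) = g (algebraMap M E x) := fun x =>
        AlgEquiv.restrictNormal_commutes (g.restrictScalars K) M x
      have h24 : τ = 1 := by
        refine Helper45.EQM.eq_one_sup hM τ (fun y hy => ?_) fun y hy => ?_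
        · apply (algebraMap M E).injective
          rw [hτ]
          exact hgM₀ ⟨y, hy⟩
        · apply (algebraMap M E).injective
          rw [hτ]
          have h25 : y = algebraMap F M ⟨y, hy⟩ := Subtype.ext rfl
          rw [h25, ← IsScalarTower.algebraMap_apply F M E, IsScalarTower.algebraMap_apply F N E,
            g.commutes]
      rw [← hτ, h24, AlgEquiv.one_apply]
    rw [h23, IntermediateField.fixedField_bot]
  · intro A _ _ _ _ _ _ _ hA m hm E' _ _ _ _ _ _ _ S' hS' hSS ρ hρ hT hr
    exact h22 E' S' hS' hSS A hA m hm ρ hρ hT hr

/-- The inequality of Golod and Shafarevich for `δ + 1` generators, `δ + c p (r + 1)` relations and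
`3 c p` further relations which are `p`-th powers, where `δ` is the largest number congruent to `1`
modulo `c` with `2 δ ≤ p`. -/
theorem golod {p r c : ℕ} (hc : 1 ≤ c) (h : 16 * c * (r + 1) + 4 * c + 6 ≤ p) :
    ∃ δ : ℕ, 3 ≤ δ ∧ δ ≡ 1 [MOD c] ∧ 2 * δ ≤ p ∧ p < 2 * δ + 2 * c ∧
      ∃ t : ℝ, 0 < t ∧ t < 1 ∧
        1 - (δ + 1 : ℝ) * t + (δ + c * p * (r + 1) : ℝ) * t ^ 2 + (3 * c * p : ℝ) * t ^ p < 0 :=
  Helper84.EQMU.golod3 hc h

end Pool.Agent.Results.MP_924d78_nt.UnramifiedResidualField
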